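import Pool.Agent.Helper31.LD3.ASM

/-!
# Project PD, block ASMT: the sum over the stages, for a family of bounded functions
-/

set_option autoImplicit false

namespace Pool.Agent.Helper65.PD

open Set Filter Topology
open Pool.Agent.Helper41.LD (Kk Kk_mono Kk_ge log_le exists_block)
open Pool.Agent.Helper31.LD3 (exists_stage)

/-- all the sums of the first `N` terms are at most `E` -/
def DS {β : Type} (f : β → ℕ → ℝ) (N : ℕ) (E : ℝ) : Prop := ∀ b : β, |∑ n ∈ Finset.range N, f b n| ≤ E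

theorem DS.mono {β : Type} {f : β → ℕ → ℝ} {N : ℕ} {E E' : ℝ} (h : DS f N E) (hE : E ≤ E') : DS f N E' :=
  fun b => (h b).trans hE

theorem sum_le_two {β : Type} (f : β → ℕ → ℝ) (hf : ∀ b n, |f b n| ≤ 2) (s : Finset ℕ) (b : β) :
    |∑ n ∈ s, f b n| ≤ 2 * s.card := by
  refine (Finset.abs_sum_le_sum_abs _ _).trans ?_
  refine (Finset.sum_le_card_nsmul s (fun n => |f b n|) 2 fun n _ => hf b n).trans ?_
  rw [nsmul_eq_mul]
  exact (mul_comm _ _).le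

theorem DS_self {β : Type} (f : β → ℕ → ℝ) (hf : ∀ b n, |f b n| ≤ 2) (N : ℕ) : DS f N (2 * N) := by
  intro b
  have h := sum_le_two f hf (Finset.range N) b
  rwa [Finset.card_range] at h

theorem sum_split {β : Type} (f : β → ℕ → ℝ) {n₁ n₂ : ℕ} (hn : n₁ ≤ n₂) (b : β) :
    ∑ n ∈ Finset.range n₂, f b n = ∑ n ∈ Finset.range n₁, f b n + ∑ n ∈ Finset.Ico n₁ n₂, f b n :=
  (Finset.sum_range_add_sum_Ico (f b) hn).symm

theorem DS_block {β : Type} {f : β → ℕ → ℝ} {n₁ n₂ : ℕ} {E E' : ℝ} (h : DS f n₁ E) (hn : n₁ ≤ n₂)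
    (h' : ∀ b : β, |∑ n ∈ Finset.Ico n₁ n₂, f b n| ≤ E') : DS f n₂ (E + E') := by
  intro b
  rw [sum_split f hn b]
  exact (abs_add_le _ _).trans (add_le_add (h b) (h' b))

theorem DS.add {β : Type} {f : β → ℕ → ℝ} (hf : ∀ b n, |f b n| ≤ 2) {N : ℕ} {E : ℝ}
    (h : DS f N E) (m : ℕ) : DS f (N + m) (E + 2 * m) := by
  refine DS_block h (Nat.le_add_right _ _) fun b => ?_
  have h1 := sum_le_two f hf (Finset.Ico N (N + m)) b
  rwa [Nat.card_Ico, Nat.add_sub_cancel_left] at h1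

theorem asmT {β : Type} (f : β → ℕ → ℝ) (hf : ∀ b n, |f b n| ≤ 2) {κ K₀ e : ℕ} (hK₀ : 1 ≤ K₀) {ν : ℕ → ℕ} (hν : Monotone ν) {C₁ C₂ : ℕ}
    (hν1 : ∀ k, ν (k + 1) ≤ ν k + C₁ * Kk K₀ k ^ (2 * κ + 1)) (hν2 : ∀ k, k ≤ C₂ * (ν k + 1)) {ks : ℕ → ℕ} (hks : StrictMono ks)
    (he : 2 * κ + 4 ≤ e) (hks2 : ∀ σ, σ ≤ Kk K₀ (ks σ)) {G : ℕ → ℕ} {i : ℕ} (hG : ∀ σ ≥ i, G σ ^ 2 ≤ Kk K₀ (ks σ))
    (hE : ∀ σ ≥ i, ∀ k, ks σ ≤ k → k ≤ ks (σ + 1) → ∀ b : β,
      |∑ n ∈ Finset.Ico (ν (ks σ)) (ν k), f b n| ≤ G σ * (Kk K₀ (ks σ) : ℝ) ^ e) :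
    ∃ N₀ : ℕ, ∀ N ≥ N₀, ∀ b : β, |∑ n ∈ Finset.range N, f b n| ≤ Real.log N ^ (e + 2) := by
  suffices hfinal : ∃ N₀ : ℕ, ∀ N ≥ N₀, DS f N (Real.log N ^ (e + 2)) from hfinal
  -- one stage costs at most `sqrt K * K ^ e`
  have hGs : ∀ σ ≥ i, ∀ k, ks σ ≤ k → (G σ : ℝ) * (Kk K₀ (ks σ) : ℝ) ^ e ≤
      Real.sqrt (Kk K₀ k) * (Kk K₀ k : ℝ) ^ e := by
    intro σ hσ k hk
    have hKK : (Kk K₀ (ks σ) : ℝ) ≤ Kk K₀ k := by exact_mod_cast Kk_mono K₀ hk
    have h1 : (G σ : ℝ) ≤ Real.sqrt (Kk K₀ k) := by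
      refine Real.le_sqrt_of_sq_le ?_
      refine le_trans ?_ hKK
      exact_mod_cast hG σ hσ
    have h2 : (Kk K₀ (ks σ) : ℝ) ^ e ≤ (Kk K₀ k : ℝ) ^ e := by gcongr
    exact mul_le_mul h1 h2 (by positivity) (Real.sqrt_nonneg _)
  -- the sums up to the beginning of the stages
  have hst : ∀ j k, ks (i + j) ≤ k → DS f (ν (ks (i + j))) (2 * ν (ks i) +
      j * (Real.sqrt (Kk K₀ k) * (Kk K₀ k : ℝ) ^ e)) := by
    intro j
    induction j with
    | zero =>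
      intro k _
      refine (DS_self f hf _).mono ?_
      simp
    | succ j ih =>
      intro k hk
      have e : i + (j + 1) = i + j + 1 := by ring
      rw [e] at hk ⊢
      have hle : ks (i + j) ≤ ks (i + j + 1) := hks.monotone (Nat.le_succ _)
      have h1 := DS_block (ih k (hle.trans hk)) (hν hle)
        (hE (i + j) (Nat.le_add_right _ _) (ks (i + j + 1)) hle le_rfl)
      refine h1.mono ?_
      have h2 := hGs (i + j) (Nat.le_add_right _ _) k (hle.trans hk)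
      push_cast
      linarith
  -- the sums up to all `ν k`
  have hk : ∀ k, ks i ≤ k → DS f (ν k) ((2 * ν (ks i) + 2) * (Real.sqrt (Kk K₀ k) * (Kk K₀ k : ℝ) ^ (e + 1))) := by
    intro k hik
    obtain ⟨σ, h1, h2, h3⟩ := exists_stage hks hik
    obtain ⟨j, rfl⟩ := Nat.exists_eq_add_of_le h1
    have h4 := DS_block (hst j k h2) (hν h2) (hE (i + j) h1 k h2 h3)
    refine h4.mono ?_
    have hK1 : (1 : ℝ) ≤ Kk K₀ k := by exact_mod_cast hK₀.trans (Kk_ge K₀ k)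
    have h5 := hGs (i + j) h1 k h2
    have hj : (j : ℝ) ≤ Kk K₀ k := by
      have h6 : i + j ≤ Kk K₀ k := (hks2 (i + j)).trans (Kk_mono K₀ h2)
      exact_mod_cast (Nat.le_add_left j i).trans h6
    have hs1 : (1 : ℝ) ≤ Real.sqrt (Kk K₀ k) := by
      rw [Real.one_le_sqrt]
      exact hK1
    set s := Real.sqrt (Kk K₀ k) with hs
    set K : ℝ := (Kk K₀ k : ℝ) with hKdef
    have hs0 : 0 ≤ s := by linarith
    have hp0 : (0 : ℝ) ≤ K ^ e := by positivity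
    have hp5 : K ^ (e + 1) = K ^ e * K := by ring
    have hp1 : (1 : ℝ) ≤ s * K ^ (e + 1) := by
      have := one_le_pow₀ (n := (e + 1)) hK1
      nlinarith
    have hν0 : (0 : ℝ) ≤ 2 * ν (ks i) := by positivity
    have h7 : (2 * ν (ks i) : ℝ) ≤ 2 * ν (ks i) * (s * K ^ (e + 1)) := le_mul_of_one_le_right hν0 hp1
    have hu0 : 0 ≤ s * K ^ e := mul_nonneg hs0 hp0
    have h8 : (j : ℝ) * (s * K ^ e) ≤ K * (s * K ^ e) := mul_le_mul_of_nonneg_right hj hu0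
    have h9 : s * K ^ e ≤ K * (s * K ^ e) := le_mul_of_one_le_left hu0 hK1
    calc (2 * ν (ks i) : ℝ) + j * (s * K ^ e) + G (i + j) * (Kk K₀ (ks (i + j)) : ℝ) ^ e
        ≤ 2 * ν (ks i) * (s * K ^ (e + 1)) + K * (s * K ^ e) + K * (s * K ^ e) := by linarith
      _ = (2 * ν (ks i) + 2) * (s * K ^ (e + 1)) := by rw [hp5]; ring
  -- the final bound
  have hlim : Tendsto (fun N : ℕ => Real.log N) atTop atTop := Real.tendsto_log_atTop.comp tendsto_natCast_atTop_atTop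
  have hνt : Tendsto ν atTop atTop := by
    refine tendsto_atTop_atTop_of_monotone hν fun b => ⟨C₂ * (b + 1), ?_⟩
    by_contra hcon
    push Not at hcon
    rcases Nat.eq_zero_or_pos C₂ with h0 | h0
    · have := hν2 1
      rw [h0] at this
      omega
    · have h1 := hν2 (C₂ * (b + 1))
      have h2 : b + 1 ≤ ν (C₂ * (b + 1)) + 1 := Nat.le_of_mul_le_mul_left h1 h0
      omega
  have hev : ∀ᶠ N : ℕ in atTop, ((2 * (ν (ks i) : ℝ) + 2 + 2 * C₁) * 11 ^ (e + 1)) ^ 2 * 11 ≤ Real.log N ∧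
      (K₀ : ℝ) ≤ Real.log N ∧ 1 ≤ N ∧ ν (ks i) ≤ N ∧ C₂ ≤ N :=
    (hlim.eventually_ge_atTop _).and ((hlim.eventually_ge_atTop _).and ((eventually_ge_atTop 1).and
      ((eventually_ge_atTop (ν (ks i))).and (eventually_ge_atTop C₂))))
  obtain ⟨N₀, hN₀⟩ := eventually_atTop.1 hev
  refine ⟨N₀, fun N hN => ?_⟩
  obtain ⟨g1, g2, g3, g4, g5⟩ := hN₀ N hN
  have hm' : Monotone fun j => ν (ks i + j) := fun a b hab => hν (by omega)
  have ht' : Tendsto (fun j => ν (ks i + j)) atTop atTop :=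
    hνt.comp (tendsto_atTop_mono (fun j => Nat.le_add_left j (ks i)) tendsto_id)
  obtain ⟨j, hj1, hj2⟩ := exists_block hm' ht' (N := N) (by simpa using g4)
  set k := ks i + j with hkdef
  have hk1 : ν k ≤ N := hj1
  have hk2 : N < ν (k + 1) := by
    have : N < ν (ks i + (j + 1)) := hj2
    have e : ks i + (j + 1) = k + 1 := by rw [hkdef]; ring
    rwa [e] at this
  obtain ⟨m, rfl⟩ := Nat.exists_eq_add_of_le hk1
  refine ((hk k (Nat.le_add_right _ _)).add hf m).mono ?_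
  set N := ν k + m with hNdef
  set K := Kk K₀ k with hK
  have hK1 : 1 ≤ K := hK₀.trans (Kk_ge K₀ k)
  have hKr : (1 : ℝ) ≤ K := by exact_mod_cast hK1
  have hm : m ≤ C₁ * K ^ (2 * κ + 1) := by
    have := hν1 k
    rw [← hK] at this
    omega
  have hm' : (m : ℝ) ≤ C₁ * (K : ℝ) ^ (e + 1) := by
    have h1 : (m : ℝ) ≤ C₁ * (K : ℝ) ^ (2 * κ + 1) := by exact_mod_cast hm
    refine h1.trans ?_
    have h2 : (K : ℝ) ^ (2 * κ + 1) ≤ (K : ℝ) ^ (e + 1) := pow_le_pow_right₀ hKr (by omega)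
    exact mul_le_mul_of_nonneg_left h2 (Nat.cast_nonneg _)
  have hNr : (1 : ℝ) ≤ N := by exact_mod_cast g3
  have hlog0 : 0 ≤ Real.log N := Real.log_nonneg hNr
  have hKN : (K : ℝ) ≤ 11 * Real.log N := by
    have h1 : k ≤ C₂ * (N + 1) := (hν2 k).trans (Nat.mul_le_mul_left _ (by omega))
    have h1' : k + 1 ≤ (N + 1) ^ 2 := by nlinarith
    have h2 : Nat.log 2 (k + 1) ≤ 2 * (Nat.log 2 (N + 1) + 1) := by
      have h3 : N + 1 < 2 ^ (Nat.log 2 (N + 1) + 1) := Nat.lt_pow_succ_log_self (by norm_num) _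
      have h4 : k + 1 < 2 ^ (2 * (Nat.log 2 (N + 1) + 1)) := by
        calc k + 1 ≤ (N + 1) ^ 2 := h1'
          _ < (2 ^ (Nat.log 2 (N + 1) + 1)) ^ 2 := Nat.pow_lt_pow_left h3 (by norm_num)
          _ = 2 ^ (2 * (Nat.log 2 (N + 1) + 1)) := by rw [← pow_mul]; ring_nf
      exact (Nat.log_lt_of_lt_pow (by omega) h4).le
    have h3 : (K : ℝ) = K₀ + (Nat.log 2 (k + 1) : ℝ) := by
      rw [hK]; unfold Kk; push_cast; ring
    have h4 : (Nat.log 2 (k + 1) : ℝ) ≤ 2 * ((Nat.log 2 (N + 1) : ℝ) + 1) := by exact_mod_cast h2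
    have h5 := log_le N
    have h9 : (1 : ℝ) ≤ (K₀ : ℝ) := by exact_mod_cast hK₀
    have h6 : Real.log (N + 1) ≤ 2 * Real.log N := by
      have h7 : (N : ℝ) + 1 ≤ (N : ℝ) ^ 2 := by
        have h8 : (2 : ℝ) ≤ N := by
          have : (1 : ℝ) ≤ Real.log N := by linarith
          have h10 : Real.exp 1 ≤ N := by
            rw [← Real.exp_log (show (0 : ℝ) < N by linarith)]
            exact Real.exp_le_exp.2 this
          have := Real.add_one_le_exp (1 : ℝ)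
          linarith
        nlinarith
      calc Real.log (N + 1) ≤ Real.log ((N : ℝ) ^ 2) := Real.log_le_log (by positivity) h7
        _ = 2 * Real.log N := by rw [Real.log_pow]; norm_num
    linarith
  have hsK : Real.sqrt K ≤ Real.sqrt (11 * Real.log N) := Real.sqrt_le_sqrt hKN
  have hs1 : (1 : ℝ) ≤ Real.sqrt K := by
    rw [Real.one_le_sqrt]
    exact hKr
  have hfin : ((2 * (ν (ks i) : ℝ) + 2 + 2 * C₁) * 11 ^ (e + 1)) * Real.sqrt (11 * Real.log N) ≤ Real.log N := by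
    set c : ℝ := (2 * (ν (ks i) : ℝ) + 2 + 2 * C₁) * 11 ^ (e + 1) with hc
    have hc0 : 0 ≤ c := by positivity
    refine le_of_sq_le_sq ?_ hlog0
    rw [mul_pow, Real.sq_sqrt (by positivity)]
    calc c ^ 2 * (11 * Real.log N) = (c ^ 2 * 11) * Real.log N := by ring
      _ ≤ Real.log N * Real.log N := mul_le_mul_of_nonneg_right g1 hlog0
      _ = Real.log N ^ 2 := by ring
  have hm2 : (m : ℝ) ≤ C₁ * (Real.sqrt K * (K : ℝ) ^ (e + 1)) := by
    refine hm'.trans ?_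
    have h2 : (K : ℝ) ^ (e + 1) ≤ Real.sqrt K * (K : ℝ) ^ (e + 1) := le_mul_of_one_le_left (by positivity) hs1
    exact mul_le_mul_of_nonneg_left h2 (Nat.cast_nonneg _)
  calc (2 * (ν (ks i) : ℝ) + 2) * (Real.sqrt K * (K : ℝ) ^ (e + 1)) + 2 * m
      ≤ (2 * (ν (ks i) : ℝ) + 2) * (Real.sqrt K * (K : ℝ) ^ (e + 1)) + 2 * (C₁ * (Real.sqrt K * (K : ℝ) ^ (e + 1))) := by linarith
    _ = (2 * (ν (ks i) : ℝ) + 2 + 2 * C₁) * (Real.sqrt K * (K : ℝ) ^ (e + 1)) := by ring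
    _ ≤ (2 * (ν (ks i) : ℝ) + 2 + 2 * C₁) * (Real.sqrt (11 * Real.log N) * (11 * Real.log N) ^ (e + 1)) := by gcongr
    _ = (((2 * (ν (ks i) : ℝ) + 2 + 2 * C₁) * 11 ^ (e + 1)) * Real.sqrt (11 * Real.log N)) * Real.log N ^ (e + 1) := by
      rw [mul_pow]; ring
    _ ≤ Real.log N * Real.log N ^ (e + 1) := by gcongr
    _ = Real.log N ^ (e + 2) := by ring

end Pool.Agent.Helper65.PD
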