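import Pool.Agent.Helper41.PD.Defs
import Pool.Agent.Helper47.LD7.TTB2
import Pool.Agent.Helper17.LD6.H1
import Pool.Agent.Helper17.LD6.GM
import Pool.Agent.Helper17.LD7.H57
import Pool.Agent.Helper44.LD3.LEN
import Pool.Agent.Helper41.LD4.Main

/-!
# Project PD, block SLOW: the targets of the densities move slowly
-/

set_option autoImplicit false

namespace Pool.Agent.Helper65.PD

open Set MeasureTheory Filter Topology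
open Pool.Agent.Helper41.LD (haar)
open Pool.Agent.Helper41.LD3 (ll ll_pos ll_le)
open Pool.Agent.Helper41.LD4 (kp)
open Pool.Agent.Helper41.LD5 (fp)
open Pool.Agent.Helper41.LD6 (hr vr lv Qs vq lev Lv)
open Pool.Agent.Helper41.LD7
open Pool.Agent.Helper41.PD

theorem hr_abs_sq65 (n : ℕ) (t : ℝ) : |hr n t| = hr n t * hr n t := by
  by_cases h : n = 0
  · rw [h, Pool.Agent.Helper17.LD6.hr_zero17]
    simp
  · rw [Pool.Agent.Helper17.LD6.hr_pos17 h]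
    unfold Pool.Agent.Helper41.LD.haar Pool.Agent.Helper41.LD.ind
    split_ifs <;> simp

theorem int_hr65 {u : ℝ → ℝ} (hu : Measurable u) {B : ℝ} (hB : ∀ t, |u t| ≤ B) (q : ℕ) :
    |∫ t in (0 : ℝ)..1, u t * hr q t| ≤ B * vr q := by
  have hm := Pool.Agent.Helper17.LD6.hr_meas17 q
  have hb := Pool.Agent.Helper17.LD6.hr_abs17 q
  have hB0 : 0 ≤ B := (abs_nonneg _).trans (hB 0)
  have hi1 : IntervalIntegrable (fun t => |u t * hr q t|) volume 0 1 := by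
    refine (intervalIntegrable_const (c := B)).mono_fun ((hu.mul hm).abs.aestronglyMeasurable) ?_
    refine Eventually.of_forall fun t => ?_
    simp only [Real.norm_eq_abs, abs_abs, abs_mul, abs_of_nonneg hB0]
    exact (mul_le_mul (hB t) (hb t) (abs_nonneg _) hB0).trans (mul_one B).le
  have hi2 : IntervalIntegrable (fun t => B * (hr q t * hr q t)) volume 0 1 := by
    refine (intervalIntegrable_const (c := B)).mono_fun ((measurable_const.mul (hm.mul hm)).aestronglyMeasurable) ?_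
    refine Eventually.of_forall fun t => ?_
    simp only [Real.norm_eq_abs, abs_mul, abs_of_nonneg hB0]
    exact (mul_le_mul_of_nonneg_left (mul_le_one₀ (hb t) (abs_nonneg _) (hb t)) hB0).trans (mul_one B).le
  calc |∫ t in (0 : ℝ)..1, u t * hr q t| ≤ ∫ t in (0 : ℝ)..1, |u t * hr q t| :=
        intervalIntegral.abs_integral_le_integral_abs (by norm_num)
    _ ≤ ∫ t in (0 : ℝ)..1, B * (hr q t * hr q t) := by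
        refine intervalIntegral.integral_mono_on (by norm_num) hi1 hi2 fun t _ => ?_
        rw [abs_mul, ← hr_abs_sq65]
        exact mul_le_mul_of_nonneg_right (hB t) (abs_nonneg _)
    _ = B * vr q := by
        rw [intervalIntegral.integral_const_mul, Pool.Agent.Helper17.LD6.hr_orth, if_pos rfl]

/-- the first time of a stage that starts with a short window -/
theorem n₀_low65 {X : ℕ} {A₀ x₁ x₂ : ℝ} {c : ℝ → ℝ} (hF : (F0 X A₀ x₁ x₂ c).Ok) {K m : ℕ} {a₀ ℓst : ℝ}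
    (hK : (F0 X A₀ x₁ x₂ c).Big K) (S : (F0 X A₀ x₁ x₂ c).St K a₀ ℓst) (hl : ℓst ≤ (1 / 2) ^ m) :
    m + 1 ≤ (X + 1) * (F0 X A₀ x₁ x₂ c).n₀ K a₀ ℓst := by
  set F := F0 X A₀ x₁ x₂ c with hFdef
  have hX : F.X = X := rfl
  have hP : F.P = 1 := rfl
  have h0 : F.P + 1 ≤ F.n₀ K a₀ ℓst := Pool.Agent.Helper47.LD7.n₀_big hF hK S
  have h1 : F.Th K ≤ fp F.A₀ F.P (F.n₀ K a₀ ℓst) a₀ * ℓst := Pool.Agent.Helper68.LD7.Tt_spec hF S.lo S.pos _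
  have h2 : (2 : ℝ) ^ (F.X + 1) ≤ F.Th K := Pool.Agent.Helper68.LD7.Th_ge hF hK
  have ha : 1 ≤ a₀ := hF.h1.le.trans S.lo
  have ha2 : a₀ ≤ F.x₂ := by linarith [S.hi, S.pos]
  set n := F.n₀ K a₀ ℓst with hn
  have h3 := Pool.Agent.Helper68.LD7.fp_step_le68 (A₀ := F.A₀) (P := F.P) (m := 1) (x := a₀) hF.hA hF.hP le_rfl ha (n - 1)
  rw [show 1 + (n - 1) = n by omega] at h3
  have h4 := Pool.Agent.Helper68.LD7.fp_small68 (A₀ := F.A₀) (P := F.P) (m := 1) (x := a₀) hF.hA hF.hP (by omega) ha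
  have h5 : (2 * a₀) ^ (n - 1) ≤ (2 : ℝ) ^ ((F.X + 1) * (n - 1)) := by
    rw [pow_mul]
    refine pow_le_pow_left₀ (by linarith) ?_ _
    rw [pow_succ']
    linarith [hF.hx2]
  have h6 : fp F.A₀ F.P n a₀ ≤ (2 : ℝ) ^ ((F.X + 1) * (n - 1)) * 2 ^ F.X := by
    have h7 : 0 ≤ (2 * a₀) ^ (n - 1) := by positivity
    calc fp F.A₀ F.P n a₀ ≤ (2 * a₀) ^ (n - 1) * fp F.A₀ F.P 1 a₀ := h3
      _ ≤ (2 * a₀) ^ (n - 1) * F.A₀ := mul_le_mul_of_nonneg_left h4 h7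
      _ ≤ (2 : ℝ) ^ ((F.X + 1) * (n - 1)) * 2 ^ F.X := mul_le_mul h5 hF.hA1 hF.hA.le (by positivity)
  have h7 : (2 : ℝ) ^ (F.X + 1) ≤ (2 : ℝ) ^ ((F.X + 1) * (n - 1)) * 2 ^ F.X * (1 / 2) ^ m := by
    refine h2.trans (h1.trans ?_)
    exact mul_le_mul h6 hl S.pos.le (by positivity)
  have h8 : (2 : ℝ) ^ (F.X + 1 + m) ≤ (2 : ℝ) ^ ((F.X + 1) * (n - 1) + F.X) := by
    rw [pow_add _ (F.X + 1) m, pow_add _ ((F.X + 1) * (n - 1)) F.X]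
    calc (2 : ℝ) ^ (F.X + 1) * 2 ^ m ≤ ((2 : ℝ) ^ ((F.X + 1) * (n - 1)) * 2 ^ F.X * (1 / 2) ^ m) * 2 ^ m :=
          mul_le_mul_of_nonneg_right h7 (by positivity)
      _ = (2 : ℝ) ^ ((F.X + 1) * (n - 1)) * 2 ^ F.X * ((1 / 2) * 2) ^ m := by rw [mul_pow]; ring
      _ = (2 : ℝ) ^ ((F.X + 1) * (n - 1)) * 2 ^ F.X := by norm_num
  have h9 : F.X + 1 + m ≤ (F.X + 1) * (n - 1) + F.X := (pow_le_pow_iff_right₀ (by norm_num : (1 : ℝ) < 2)).1 h8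
  have h10 : (X + 1) * (n - 1) ≤ (X + 1) * n := Nat.mul_le_mul_left _ (Nat.sub_le _ _)
  rw [hX] at h9
  omega

/-- the numbers -/
theorem num65 (X K₀ : ℕ) (hX : 1 ≤ X) : ∃ N₁ : ℕ, ∀ σ n : ℕ, N₁ ≤ n → 2 ^ σ ≤ (X + 1) * n →
    0 < Real.log n ∧ 2000 * ((X : ℝ) * ((K₀ + σ : ℕ) : ℝ) ^ 3) * (((K₀ + σ : ℕ) : ℝ) + 1) ≤ Real.log n ^ 5 := by
  set σ₀ : ℕ := 1024000 * (X + 1) + K₀ + 1 with hσ₀
  set M : ℝ := 2000 * ((X : ℝ) + 1) * ((K₀ + σ₀ + 1 : ℕ) : ℝ) ^ 4 with hM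
  have hb1 : (1 : ℝ) ≤ ((K₀ + σ₀ + 1 : ℕ) : ℝ) := by
    have : 1 ≤ K₀ + σ₀ + 1 := by omega
    exact_mod_cast this
  have hXr : (1 : ℝ) ≤ X := by exact_mod_cast hX
  have hM1 : 1 ≤ M := by
    have h1 : (1 : ℝ) ≤ ((K₀ + σ₀ + 1 : ℕ) : ℝ) ^ 4 := one_le_pow₀ hb1
    rw [hM]
    nlinarith
  refine ⟨⌈Real.exp M⌉₊, fun σ n hn hσn => ?_⟩
  have hn1 : Real.exp M ≤ n := (Nat.le_ceil _).trans (by exact_mod_cast hn)
  have hn0 : (0 : ℝ) < n := (Real.exp_pos M).trans_le hn1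
  have hlogM : M ≤ Real.log n := by
    rw [Real.le_log_iff_exp_le hn0]
    exact hn1
  have hlog1 : 1 ≤ Real.log n := hM1.trans hlogM
  refine ⟨by linarith, ?_⟩
  rcases le_or_gt σ₀ σ with h | h
  · -- large stages
    have hl2 : (0.69 : ℝ) < Real.log 2 := by have := Real.log_two_gt_d9; linarith
    have h1 : (σ : ℝ) * Real.log 2 ≤ Real.log (X + 1) + Real.log n := by
      have h2 : ((2 : ℝ) ^ σ) ≤ ((X : ℝ) + 1) * n := by exact_mod_cast hσn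
      have h3 := Real.log_le_log (by positivity) h2
      rw [Real.log_pow, Real.log_mul (by positivity) hn0.ne'] at h3
      exact h3
    have h2 : Real.log ((X : ℝ) + 1) ≤ X := by
      have := Real.log_le_sub_one_of_pos (show (0 : ℝ) < (X : ℝ) + 1 by positivity)
      linarith
    have h3 : (1024000 * ((X : ℝ) + 1) + K₀ + 1) ≤ σ := by exact_mod_cast h
    have hK0 : (0 : ℝ) ≤ K₀ := Nat.cast_nonneg _
    have hs0 : (0 : ℝ) ≤ σ := Nat.cast_nonneg _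
    have h4 : (σ : ℝ) / 2 ≤ Real.log n := by nlinarith
    have h5 : (((K₀ + σ : ℕ) : ℝ)) + 1 ≤ 2 * σ := by push_cast; nlinarith
    have h5' : (((K₀ + σ : ℕ) : ℝ)) ≤ 2 * σ := by linarith
    have h5'' : (0 : ℝ) ≤ ((K₀ + σ : ℕ) : ℝ) := Nat.cast_nonneg _
    have h6 : 2000 * ((X : ℝ) * ((K₀ + σ : ℕ) : ℝ) ^ 3) * (((K₀ + σ : ℕ) : ℝ) + 1) ≤ 2000 * ((X : ℝ) * (2 * σ) ^ 3) * (2 * σ) := by
      have h7 : ((K₀ + σ : ℕ) : ℝ) ^ 3 ≤ (2 * σ) ^ 3 := pow_le_pow_left₀ h5'' h5' 3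
      gcongr
    have h7 : 1024000 * (X : ℝ) ≤ σ := by nlinarith
    calc 2000 * ((X : ℝ) * ((K₀ + σ : ℕ) : ℝ) ^ 3) * (((K₀ + σ : ℕ) : ℝ) + 1) ≤ 2000 * ((X : ℝ) * (2 * σ) ^ 3) * (2 * σ) := h6
      _ = (1024000 * (X : ℝ)) * ((σ : ℝ) ^ 4 / 32) := by ring
      _ ≤ σ * ((σ : ℝ) ^ 4 / 32) := mul_le_mul_of_nonneg_right h7 (by positivity)
      _ = ((σ : ℝ) / 2) ^ 5 := by ring
      _ ≤ Real.log n ^ 5 := pow_le_pow_left₀ (by positivity) h4 5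
  · -- small stages
    have h1 : ((K₀ + σ : ℕ) : ℝ) + 1 ≤ ((K₀ + σ₀ + 1 : ℕ) : ℝ) := by
      have : K₀ + σ + 1 ≤ K₀ + σ₀ + 1 := by omega
      exact_mod_cast this
    have h1' : ((K₀ + σ : ℕ) : ℝ) ≤ ((K₀ + σ₀ + 1 : ℕ) : ℝ) := by linarith
    have h1'' : (0 : ℝ) ≤ ((K₀ + σ : ℕ) : ℝ) := Nat.cast_nonneg _
    have h2 : ((K₀ + σ : ℕ) : ℝ) ^ 3 ≤ ((K₀ + σ₀ + 1 : ℕ) : ℝ) ^ 3 := pow_le_pow_left₀ h1'' h1' 3
    calc 2000 * ((X : ℝ) * ((K₀ + σ : ℕ) : ℝ) ^ 3) * (((K₀ + σ : ℕ) : ℝ) + 1)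
        ≤ 2000 * (((X : ℝ) + 1) * ((K₀ + σ₀ + 1 : ℕ) : ℝ) ^ 3) * ((K₀ + σ₀ + 1 : ℕ) : ℝ) := by
          gcongr
          linarith
      _ = M := by rw [hM]; ring
      _ ≤ Real.log n := hlogM
      _ = Real.log n ^ 1 := (pow_one _).symm
      _ ≤ Real.log n ^ 5 := pow_le_pow_right₀ hlog1 (by norm_num)

theorem slow_all {X : ℕ} {A₀ x₁ x₂ : ℝ} {c : ℝ → ℝ} (hF : (F0 X A₀ x₁ x₂ c).Ok) (u : ℕ → ℝ → ℝ) (hum : ∀ n, Measurable (u n))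
    (hu : ∀ᶠ n : ℕ in atTop, ∀ t, |u n t| ≤ 1 / Real.log n ^ 5) {K₀ : ℕ} (hK₀ : 1 ≤ K₀) {ℓ₀ : ℝ} (hℓ₀ : 0 < ℓ₀) (hℓ₀1 : ℓ₀ ≤ 1) :
    ∃ N₁ : ℕ, ∀ (σ : ℕ) (a₀ : ℝ), (F0 X A₀ x₁ x₂ c).Big (K₀ + σ) → (F0 X A₀ x₁ x₂ c).St (K₀ + σ) a₀ (ll 1 K₀ ℓ₀ (kp σ)) →
      Slow (F0 X A₀ x₁ x₂ c) (tgD u N₁) (K₀ + σ) a₀ (ll 1 K₀ ℓ₀ (kp σ)) := by
  have hX : 1 ≤ X := hF.hPX
  obtain ⟨N, hN⟩ := num65 X K₀ hX
  obtain ⟨N', hN'⟩ := eventually_atTop.1 hu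
  refine ⟨max N N', fun σ a₀ hK S p _ n hn => ?_⟩
  have hl : ll 1 K₀ ℓ₀ (kp σ) ≤ (1 / 2) ^ kp σ :=
    (ll_le hℓ₀ hK₀ _).trans (mul_le_of_le_one_left (by positivity) hℓ₀1)
  have h1 := n₀_low65 hF hK S hl
  have h2 : 2 ^ σ ≤ (X + 1) * n := by
    have h3 : kp σ + 1 = 2 ^ σ := by
      unfold kp
      have : 1 ≤ 2 ^ σ := Nat.one_le_two_pow
      omega
    rw [← h3]
    exact h1.trans (Nat.mul_le_mul_left _ hn)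
  have e : tgD u (max N N') p (n + 1) - tgD u (max N N') p n =
      if max N N' ≤ n then ∫ t in (0 : ℝ)..1, u n t * hr (p.2 0) t else 0 := by
    unfold tgD
    rw [Finset.sum_range_succ]
    exact add_sub_cancel_left _ _
  rw [e]
  have hKr : (0 : ℝ) ≤ ((K₀ + σ : ℕ) : ℝ) := Nat.cast_nonneg _
  have hK1 : (1 : ℝ) ≤ ((K₀ + σ : ℕ) : ℝ) := by
    have : 1 ≤ K₀ + σ := by omega
    exact_mod_cast this
  have hXr : (1 : ℝ) ≤ X := by exact_mod_cast hX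
  have hvq : vq p.2 = vr (p.2 0) := by
    unfold vq
    exact Fin.prod_univ_one _
  have hvr : 0 ≤ vr (p.2 0) := Pool.Agent.Helper17.LD6.vr_nonneg17 _
  have hom : 1 / (2 * (((K₀ + σ : ℕ) : ℝ) + 1)) ≤ om (F0 X A₀ x₁ x₂ c).Q (K₀ + σ) (lev p.2) := by
    unfold om
    have hQ : ((F0 X A₀ x₁ x₂ c).Q : ℝ) = 1 := by
      show ((1 : ℕ) : ℝ) = 1
      norm_num
    have hd : (((F0 X A₀ x₁ x₂ c).d : ℕ) : ℝ) = 0 := by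
      show ((0 : ℕ) : ℝ) = 0
      norm_num
    rw [hQ, hd, Pool.Agent.Helper17.LD7.sp_lev]
    have hsp : sp p.2 ≤ 1 := Pool.Agent.Helper17.LD7.sp_le p.2
    have hb0 : (0 : ℝ) ≤ 1 / (2 * ((0 : ℝ) + 1) * (((K₀ + σ : ℕ) : ℝ) + 1)) := by positivity
    have hb1 : 1 / (2 * ((0 : ℝ) + 1) * (((K₀ + σ : ℕ) : ℝ) + 1)) ≤ (1 : ℝ) := by
      rw [div_le_one (by positivity)]
      linarith
    have h5 := pow_le_pow_of_le_one hb0 hb1 hsp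
    calc 1 / (2 * (((K₀ + σ : ℕ) : ℝ) + 1)) = (1 / (2 * ((0 : ℝ) + 1) * (((K₀ + σ : ℕ) : ℝ) + 1))) ^ 1 := by
          rw [pow_one]
          congr 2
          ring
      _ ≤ _ := h5
      _ = _ := by ring
  have hR0 : 0 ≤ om (F0 X A₀ x₁ x₂ c).Q (K₀ + σ) (lev p.2) := le_trans (by positivity) hom
  have hXX : (((F0 X A₀ x₁ x₂ c).X : ℕ) : ℝ) = X := rfl
  rw [hvq, hXX]
  split_ifs with h
  · obtain ⟨hlog, hnum⟩ := hN σ n ((le_max_left _ _).trans h) h2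
    have h6 := int_hr65 (hum n) (hN' n ((le_max_right _ _).trans h)) (p.2 0)
    refine h6.trans ?_
    have h7 : 1 / Real.log n ^ 5 ≤ 1 / (2 * (((K₀ + σ : ℕ) : ℝ) + 1)) / (1000 * ((X : ℝ) * ((K₀ + σ : ℕ) : ℝ) ^ 3)) := by
      rw [div_div]
      refine div_le_div_of_nonneg_left (by norm_num) (by positivity) ?_
      calc _ = 2000 * ((X : ℝ) * ((K₀ + σ : ℕ) : ℝ) ^ 3) * (((K₀ + σ : ℕ) : ℝ) + 1) := by ring
        _ ≤ _ := hnum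
    calc 1 / Real.log n ^ 5 * vr (p.2 0)
        ≤ 1 / (2 * (((K₀ + σ : ℕ) : ℝ) + 1)) / (1000 * ((X : ℝ) * ((K₀ + σ : ℕ) : ℝ) ^ 3)) * vr (p.2 0) :=
          mul_le_mul_of_nonneg_right h7 hvr
      _ = 1 / (2 * (((K₀ + σ : ℕ) : ℝ) + 1)) * vr (p.2 0) / (1000 * ((X : ℝ) * ((K₀ + σ : ℕ) : ℝ) ^ 3)) := by ring
      _ ≤ om (F0 X A₀ x₁ x₂ c).Q (K₀ + σ) (lev p.2) * vr (p.2 0) / (1000 * ((X : ℝ) * ((K₀ + σ : ℕ) : ℝ) ^ 3)) := by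
          gcongr
  · rw [abs_zero]
    positivity

/-- the first times of the stages tend to infinity -/
theorem n₀_ge65 {X : ℕ} {A₀ x₁ x₂ : ℝ} {c : ℝ → ℝ} (hF : (F0 X A₀ x₁ x₂ c).Ok) {K₀ : ℕ} (hK₀ : 1 ≤ K₀) {ℓ₀ : ℝ} (hℓ₀ : 0 < ℓ₀) (hℓ₀1 : ℓ₀ ≤ 1) (N₁ : ℕ) :
    ∃ i : ℕ, ∀ σ ≥ i, ∀ a₀ : ℝ, (F0 X A₀ x₁ x₂ c).Big (K₀ + σ) → (F0 X A₀ x₁ x₂ c).St (K₀ + σ) a₀ (ll 1 K₀ ℓ₀ (kp σ)) →
      N₁ ≤ (F0 X A₀ x₁ x₂ c).n₀ (K₀ + σ) a₀ (ll 1 K₀ ℓ₀ (kp σ)) := by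
  refine ⟨(X + 1) * N₁, fun σ hσ a₀ hK S => ?_⟩
  have hl : ll 1 K₀ ℓ₀ (kp σ) ≤ (1 / 2) ^ kp σ :=
    (ll_le hℓ₀ hK₀ _).trans (mul_le_of_le_one_left (by positivity) hℓ₀1)
  have h1 := n₀_low65 hF hK S hl
  have h3 : kp σ + 1 = 2 ^ σ := by
    unfold kp
    have : 1 ≤ 2 ^ σ := Nat.one_le_two_pow
    omega
  have h4 : σ < 2 ^ σ := Nat.lt_two_pow_self
  rw [h3] at h1
  have h5 : (X + 1) * N₁ ≤ (X + 1) * (F0 X A₀ x₁ x₂ c).n₀ (K₀ + σ) a₀ (ll 1 K₀ ℓ₀ (kp σ)) := by omega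
  exact Nat.le_of_mul_le_mul_left h5 (Nat.succ_pos X)

end Pool.Agent.Helper65.PD
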